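import Pool.Agent.Helper72.BA.Defs

/-!
# Module WF: window functions (MP_3dd6d4_an)
-/

set_option autoImplicit false

open MeasureTheory Complex FourierTransform Filter Topology
open scoped NNReal ComplexConjugate SchwartzMap ContDiff
open scoped ENNReal

noncomputable section

namespace Helper72.BA.P

open Helper72.BA

theorem wf_nrm_two (f : 𝓢(ℂ, ℂ)) : nrm 2 f = ENNReal.ofReal (∫ z, ‖f z‖ ^ 2) := by
  have hint : Integrable (fun z => ‖f z‖ ^ 2) := by
    have := (f.memLp 2 volume).integrable_norm_pow (by norm_num)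
    simpa using this
  rw [ofReal_integral_eq_lintegral_ofReal hint (ae_of_all _ fun z => by positivity)]
  unfold nrm
  refine lintegral_congr fun z => ?_
  rw [ENNReal.ofReal_pow (norm_nonneg _), ofReal_norm]

theorem wf_nrm_fourierInv (g : 𝓢(ℂ, ℂ)) : nrm 2 (𝓕⁻ g : 𝓢(ℂ, ℂ)) = nrm 2 g := by
  have h := SchwartzMap.integral_norm_sq_fourier (𝓕⁻ g : 𝓢(ℂ, ℂ))
  rw [fourier_fourierInv_eq] at h
  rw [wf_nrm_two, wf_nrm_two, h]

theorem wf_nrm_fourier (g : 𝓢(ℂ, ℂ)) : nrm 2 (𝓕 g : 𝓢(ℂ, ℂ)) = nrm 2 g := by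
  have h := SchwartzMap.integral_norm_sq_fourier g
  rw [wf_nrm_two, wf_nrm_two, h]

theorem wf_bound (g : 𝓢(ℂ, ℂ)) (z : ℂ) : ‖(𝓕⁻ g : 𝓢(ℂ, ℂ)) z‖ ≤ ∫ ξ, ‖g ξ‖ := by
  rw [SchwartzMap.fourierInv_coe, Real.fourierInv_eq]
  refine (norm_integral_le_integral_norm _).trans (le_of_eq ?_)
  refine integral_congr_ae (ae_of_all _ fun ξ => ?_)
  simp

/-- the cutoff -/
def wfB (r s : ℝ) (hr : 0 < r) (hrs : r < s) : ContDiffBump (0 : ℂ) := ⟨r, s, hr, hrs⟩

theorem wf_smooth (b : ContDiffBump (0 : ℂ)) : ContDiff ℝ ∞ (fun z : ℂ => ((b z : ℝ) : ℂ)) :=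
  Complex.ofRealCLM.contDiff.comp b.contDiff

theorem wf_supp (b : ContDiffBump (0 : ℂ)) : HasCompactSupport (fun z : ℂ => ((b z : ℝ) : ℂ)) :=
  b.hasCompactSupport.comp_left (g := fun x : ℝ => (x : ℂ)) (by simp)

/-- a bump function as a Schwartz function -/
def wfS (b : ContDiffBump (0 : ℂ)) : 𝓢(ℂ, ℂ) := (wf_supp b).toSchwartzMap (wf_smooth b)

theorem wfS_apply (b : ContDiffBump (0 : ℂ)) (z : ℂ) : wfS b z = ((b z : ℝ) : ℂ) := rfl

/-- product of a bump function with a Schwartz function -/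
def wfM (b : ContDiffBump (0 : ℂ)) (g : 𝓢(ℂ, ℂ)) : 𝓢(ℂ, ℂ) :=
  ((wf_supp b).mul_right (f' := g)).toSchwartzMap ((wf_smooth b).mul g.smooth')

theorem wfM_apply (b : ContDiffBump (0 : ℂ)) (g : 𝓢(ℂ, ℂ)) (z : ℂ) :
    wfM b g z = ((b z : ℝ) : ℂ) * g z := rfl

/-- convergence of the truncations in `L¹` -/
theorem wf_tendsto (g : 𝓢(ℂ, ℂ)) :
    Tendsto (fun T : ℕ => ∫ ξ, ‖(wfM (wfB (T + 1) (2 * (T + 1)) (by positivity)
      (by have : (0:ℝ) ≤ T := by positivity
          linarith)) g - g) ξ‖) atTop (𝓝 0) := by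
  have h0 : ∫ ξ : ℂ, (fun _ : ℂ => (0 : ℝ)) ξ = 0 := by simp
  suffices hs : Tendsto (fun T : ℕ => ∫ ξ, ‖(wfM (wfB (T + 1) (2 * (T + 1)) (by positivity)
      (by have : (0:ℝ) ≤ T := by positivity
          linarith)) g - g) ξ‖) atTop (𝓝 (∫ ξ : ℂ, (fun _ : ℂ => (0 : ℝ)) ξ)) by
    rwa [h0] at hs
  refine tendsto_integral_of_dominated_convergence (fun ξ => ‖g ξ‖) ?_ ?_ ?_ ?_
  · intro T
    exact (SchwartzMap.continuous _).norm.aestronglyMeasurable
  · exact g.integrable.norm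
  · intro T
    refine ae_of_all _ fun ξ => ?_
    rw [norm_norm, sub_apply, wfM_apply]
    set b := (wfB (T + 1) (2 * (T + 1)) (by positivity)
      (by have : (0:ℝ) ≤ T := by positivity
          linarith)) with hb
    have e : ((b ξ : ℝ) : ℂ) * g ξ - g ξ = (((b ξ - 1 : ℝ)) : ℂ) * g ξ := by push_cast; ring
    rw [e, norm_mul, Complex.norm_real, Real.norm_eq_abs]
    have h1 := b.nonneg (x := ξ)
    have h2 := b.le_one (x := ξ)
    have h3 : |b ξ - 1| ≤ 1 := by rw [abs_le]; constructor <;> linarith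
    nlinarith [norm_nonneg (g ξ)]
  · refine ae_of_all _ fun ξ => ?_
    obtain ⟨N, hN⟩ := exists_nat_ge ‖ξ‖
    refine tendsto_const_nhds.congr' ?_
    filter_upwards [eventually_ge_atTop N] with T hT
    rw [sub_apply, wfM_apply]
    set b := (wfB (T + 1) (2 * (T + 1)) (by positivity)
      (by have : (0:ℝ) ≤ T := by positivity
          linarith)) with hb
    have : b ξ = 1 := by
      apply b.one_of_mem_closedBall
      rw [mem_closedBall_zero_iff]
      have : (N : ℝ) ≤ T := by exact_mod_cast hT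
      change ‖ξ‖ ≤ (T : ℝ) + 1
      linarith
    rw [this]
    simp

theorem window_function (k : ℕ) (hk : 1 ≤ k) (ε : ℝ) (hε : 0 < ε) :
    ∃ φ : SchwartzMap ℂ ℂ, ∃ ρ₀ : ℝ, 0 < ρ₀ ∧ (∀ z, ‖φ z‖ ≤ 1) ∧
      (∀ ξ, ρ₀ < ‖ξ‖ → 𝓕 (φ : ℂ → ℂ) ξ = 0) ∧ 0 < nrm (2 * k) φ ∧ nrm (2 * k) φ < (∞ : ℝ≥0∞) ∧
      nrm 2 φ ≤ ENNReal.ofReal (1 + ε) * nrm (2 * k) φ := by
  -- choice of the parameters
  obtain ⟨δ, hδ0, hδ⟩ : ∃ δ : ℝ, 0 < δ ∧ (1 + δ) ^ 2 < 1 + ε := by
    refine ⟨min 1 (ε / 4), by positivity, ?_⟩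
    have h1 : min 1 (ε / 4) ≤ 1 := min_le_left _ _
    have h2 : min 1 (ε / 4) ≤ ε / 4 := min_le_right _ _
    have h3 : 0 < min 1 (ε / 4) := by positivity
    nlinarith
  obtain ⟨σ, hσ0, hσ1, hσ⟩ : ∃ σ : ℝ, 0 < σ ∧ σ < 1 ∧
      (1 + δ) ^ 2 ≤ (1 + ε) * ((1 - σ) / (1 + σ)) ^ (2 * k) := by
    have hc : ContinuousAt (fun s : ℝ => (1 + ε) * ((1 - s) / (1 + s)) ^ (2 * k)) 0 := by
      refine continuousAt_const.mul ((ContinuousAt.div ?_ ?_ (by norm_num)).pow _)
      · fun_prop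
      · fun_prop
    have hlim : Tendsto (fun s : ℝ => (1 + ε) * ((1 - s) / (1 + s)) ^ (2 * k)) (𝓝 0)
        (𝓝 (1 + ε)) := by
      have := hc.tendsto
      simpa using this
    have he := (hlim.eventually (eventually_gt_nhds hδ)).filter_mono (nhdsWithin_le_nhds (s := Set.Ioi 0))
    have h1 : ∀ᶠ s : ℝ in 𝓝[>] 0, s < 1 :=
      (eventually_lt_nhds one_pos).filter_mono nhdsWithin_le_nhds
    obtain ⟨s, h2, h3, h4⟩ := (he.and (h1.and self_mem_nhdsWithin)).exists
    exact ⟨s, h4, h3, h2.le⟩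
  set b := wfB 1 (1 + δ) one_pos (by linarith) with hb
  set B : 𝓢(ℂ, ℂ) := 𝓕 (wfS b) with hB
  obtain ⟨T, hT⟩ := ((wf_tendsto B).eventually_lt_const hσ0).exists
  set c := (wfB (T + 1) (2 * (T + 1)) (by positivity)
      (by have : (0:ℝ) ≤ T := by positivity
          linarith)) with hc
  set g : 𝓢(ℂ, ℂ) := wfM c B with hg
  set φT : 𝓢(ℂ, ℂ) := 𝓕⁻ g with hφT
  have hσ' : 0 < 1 + σ := by linarith
  set φ : 𝓢(ℂ, ℂ) := ((1 + σ : ℝ)⁻¹) • φT with hφ
  have hφz : ∀ z, ‖φ z‖ = (1 + σ)⁻¹ * ‖φT z‖ := by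
    intro z
    rw [hφ, smul_apply, norm_smul, Real.norm_eq_abs, abs_of_pos (by positivity)]
  have hclose : ∀ z, ‖φT z - wfS b z‖ ≤ σ := by
    intro z
    have e : wfS b = 𝓕⁻ B := by rw [hB, fourierInv_fourier_eq]
    have e2 : φT z - wfS b z = (𝓕⁻ (g - B) : 𝓢(ℂ, ℂ)) z := by
      rw [sub_eq_add_neg g B, ← neg_one_smul ℂ B, fourierInv_add, fourierInv_smul, ← e]
      rw [add_apply, smul_apply]
      rw [neg_one_smul]
      exact sub_eq_add_neg _ _
    rw [e2]
    exact (wf_bound _ _).trans hT.le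
  have hφ1 : ∀ z, ‖φ z‖ ≤ 1 := by
    intro z
    have h1 : ‖φT z‖ ≤ 1 + σ := by
      have h2 : ‖wfS b z‖ ≤ 1 := by
        rw [wfS_apply, Complex.norm_real, Real.norm_eq_abs, abs_of_nonneg b.nonneg]
        exact b.le_one
      calc ‖φT z‖ = ‖(φT z - wfS b z) + wfS b z‖ := by rw [sub_add_cancel]
        _ ≤ ‖φT z - wfS b z‖ + ‖wfS b z‖ := norm_add_le _ _
        _ ≤ 1 + σ := by linarith [hclose z]
    rw [hφz, inv_mul_le_iff₀ hσ', mul_one]
    exact h1
  have hlow : ∀ z ∈ Metric.closedBall (0 : ℂ) 1, (1 - σ) / (1 + σ) ≤ ‖φ z‖ := by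
    intro z hz
    have h2 : ‖wfS b z‖ = 1 := by
      rw [wfS_apply, b.one_of_mem_closedBall hz]; simp
    have h1 : 1 - σ ≤ ‖φT z‖ := by
      have := norm_sub_norm_le (wfS b z) (φT z)
      rw [norm_sub_rev, h2] at this
      linarith [hclose z]
    rw [hφz, div_eq_inv_mul]
    exact mul_le_mul_of_nonneg_left h1 (by positivity)
  have hq0 : 0 < (1 - σ) / (1 + σ) := div_pos (by linarith) hσ'
  -- lower bound
  have hL : ENNReal.ofReal (((1 - σ) / (1 + σ)) ^ (2 * k)) * NNReal.pi ≤ nrm (2 * k) φ := by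
    unfold nrm
    calc ENNReal.ofReal (((1 - σ) / (1 + σ)) ^ (2 * k)) * NNReal.pi
        = ∫⁻ z in Metric.closedBall (0 : ℂ) 1, ENNReal.ofReal (((1 - σ) / (1 + σ)) ^ (2 * k)) := by
          rw [setLIntegral_const, Complex.volume_closedBall]
          simp
      _ ≤ ∫⁻ z in Metric.closedBall (0 : ℂ) 1, ‖φ z‖ₑ ^ (2 * k) := by
          refine setLIntegral_mono' Metric.isClosed_closedBall.measurableSet fun z hz => ?_
          rw [ENNReal.ofReal_pow hq0.le, ← ofReal_norm]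
          gcongr
          exact hlow z hz
      _ ≤ _ := setLIntegral_le_lintegral _ _
  -- upper bound
  have hU : nrm 2 φ ≤ ENNReal.ofReal ((1 + δ) ^ 2) * NNReal.pi := by
    calc nrm 2 φ ≤ nrm 2 φT := by
          unfold nrm
          refine lintegral_mono fun z => ?_
          gcongr
          rw [← ofReal_norm, ← ofReal_norm]
          apply ENNReal.ofReal_le_ofReal
          rw [hφz, inv_mul_le_iff₀ hσ']
          nlinarith [norm_nonneg (φT z)]
      _ = nrm 2 g := by rw [hφT, wf_nrm_fourierInv]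
      _ ≤ nrm 2 B := by
          unfold nrm
          refine lintegral_mono fun z => ?_
          gcongr
          rw [← ofReal_norm, ← ofReal_norm]
          apply ENNReal.ofReal_le_ofReal
          rw [hg, wfM_apply, norm_mul, Complex.norm_real, Real.norm_eq_abs,
            abs_of_nonneg c.nonneg]
          have := c.le_one (x := z)
          nlinarith [norm_nonneg (B z)]
      _ = nrm 2 (wfS b) := by rw [hB, wf_nrm_fourier]
      _ ≤ ∫⁻ z in Metric.closedBall (0 : ℂ) (1 + δ), 1 := by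
          unfold nrm
          rw [← lintegral_indicator Metric.isClosed_closedBall.measurableSet]
          refine lintegral_mono fun z => ?_
          by_cases hz : z ∈ Metric.closedBall (0 : ℂ) (1 + δ)
          · rw [Set.indicator_of_mem hz]
            refine pow_le_one₀ (by positivity) ?_
            rw [← ofReal_norm, ← ENNReal.ofReal_one]
            apply ENNReal.ofReal_le_ofReal
            rw [wfS_apply, Complex.norm_real, Real.norm_eq_abs, abs_of_nonneg b.nonneg]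
            exact b.le_one
          · rw [Set.indicator_of_notMem hz]
            have : b z = 0 := by
              apply b.zero_of_le_dist
              rw [Metric.mem_closedBall, not_le] at hz
              exact hz.le
            rw [wfS_apply, this]
            simp
      _ = _ := by
          rw [setLIntegral_const, Complex.volume_closedBall, one_mul,
            ENNReal.ofReal_pow (by linarith)]
  have hpos : 0 < nrm (2 * k) φ := by
    refine lt_of_lt_of_le ?_ hL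
    refine ENNReal.mul_pos ?_ ?_
    · exact (ENNReal.ofReal_pos.2 (pow_pos hq0 _)).ne'
    · exact_mod_cast NNReal.pi_ne_zero
  have hfin : nrm 2 φ < (⊤ : ℝ≥0∞) := by
    refine lt_of_le_of_lt hU ?_
    exact ENNReal.mul_lt_top ENNReal.ofReal_lt_top (by simp)
  have hle : nrm (2 * k) φ ≤ nrm 2 φ := by
    unfold nrm
    refine lintegral_mono fun z => ?_
    apply pow_le_pow_of_le_one (by positivity)
    · rw [← ofReal_norm, ← ENNReal.ofReal_one]
      exact ENNReal.ofReal_le_ofReal (hφ1 z)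
    · omega
  refine ⟨φ, 2 * (T + 1), by positivity, hφ1, ?_, hpos, hle.trans_lt hfin, ?_⟩
  · intro ξ hξ
    have e : 𝓕 (φ : ℂ → ℂ) ξ = (𝓕 φ : 𝓢(ℂ, ℂ)) ξ := by rw [SchwartzMap.fourier_coe]
    rw [e, hφ, fourier_smul, hφT, fourier_fourierInv_eq, smul_apply, hg,
      wfM_apply]
    have : c ξ = 0 := by
      apply c.zero_of_le_dist
      rw [dist_zero_right]
      exact hξ.le
    rw [this]
    simp
  · calc nrm 2 φ ≤ ENNReal.ofReal ((1 + δ) ^ 2) * NNReal.pi := hU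
      _ ≤ ENNReal.ofReal ((1 + ε) * ((1 - σ) / (1 + σ)) ^ (2 * k)) * NNReal.pi := by
          gcongr
      _ = ENNReal.ofReal (1 + ε) * (ENNReal.ofReal (((1 - σ) / (1 + σ)) ^ (2 * k)) * NNReal.pi) := by
          rw [ENNReal.ofReal_mul (by linarith), mul_assoc]
      _ ≤ _ := by gcongr

theorem theta_exists : ∃ θ : SchwartzMap ℂ ℂ, (∀ ξ, 1 ≤ ‖ξ‖ → θ ξ = 0) ∧ nrm 2 θ = 1 := by
  set b := wfB (1 / 2) 1 (by norm_num) (by norm_num) with hb
  set I := ∫ z, ‖wfS b z‖ ^ 2 with hI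
  have hN := wf_nrm_two (wfS b)
  have hpos : 0 < nrm 2 (wfS b) := by
    have h1 : (0 : ℝ≥0∞) < ∫⁻ z in Metric.closedBall (0 : ℂ) (1 / 2), 1 := by
      rw [setLIntegral_const, Complex.volume_closedBall, one_mul]
      refine ENNReal.mul_pos ?_ ?_
      · exact pow_ne_zero _ (ENNReal.ofReal_pos.2 (by norm_num)).ne'
      · exact_mod_cast NNReal.pi_ne_zero
    refine h1.trans_le ?_
    calc ∫⁻ z in Metric.closedBall (0 : ℂ) (1 / 2), (1 : ℝ≥0∞)
        ≤ ∫⁻ z in Metric.closedBall (0 : ℂ) (1 / 2), ‖wfS b z‖ₑ ^ 2 := by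
          refine setLIntegral_mono' Metric.isClosed_closedBall.measurableSet fun z hz => ?_
          rw [wfS_apply, b.one_of_mem_closedBall hz]
          simp
      _ ≤ _ := setLIntegral_le_lintegral _ _
  have hIpos : 0 < I := by
    rw [hN] at hpos
    exact ENNReal.ofReal_pos.1 hpos
  refine ⟨(Real.sqrt I)⁻¹ • wfS b, ?_, ?_⟩
  · intro ξ hξ
    have : b ξ = 0 := by
      apply b.zero_of_le_dist
      rw [dist_zero_right]
      exact hξ
    rw [smul_apply, wfS_apply, this]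
    simp
  · rw [wf_nrm_two]
    have e : ∀ z, ‖((Real.sqrt I)⁻¹ • wfS b) z‖ ^ 2 = I⁻¹ * ‖wfS b z‖ ^ 2 := by
      intro z
      rw [smul_apply, norm_smul, mul_pow, Real.norm_eq_abs, sq_abs, inv_pow,
        Real.sq_sqrt hIpos.le]
    simp_rw [e]
    rw [integral_const_mul, ← hI, inv_mul_cancel₀ hIpos.ne']
    simp

end Helper72.BA.P
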