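import Mathlib

set_option autoImplicit false

open Set Filter Topology

namespace Pool.Agent.Helper56.CpKsd

/-- The topology of pointwise convergence on `C(X, ℝ)`. -/
abbrev cpTop (X : Type) [TopologicalSpace X] : TopologicalSpace C(X, ℝ) :=
  TopologicalSpace.induced (fun f : C(X, ℝ) => (f : X → ℝ)) inferInstance

/-- A linear functional that is continuous for pointwise convergence is supported on
a finite set. -/
theorem exists_finset_of_continuous {X : Type} [TopologicalSpace X] (Λ : C(X, ℝ) →ₗ[ℝ] ℝ)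
    (h : @Continuous C(X, ℝ) ℝ (cpTop X) inferInstance (fun f => Λ f)) :
    ∃ T : Finset X, ∀ f : C(X, ℝ), (∀ x ∈ T, f x = 0) → Λ f = 0 := by
  have hU : @IsOpen C(X, ℝ) (cpTop X) {f | |Λ f| < 1} := by
    have := @IsOpen.preimage _ _ (cpTop X) _ _ h _ (Metric.isOpen_ball (x := (0 : ℝ)) (ε := 1))
    convert this using 1
    ext f
    simp [Real.norm_eq_abs]
  obtain ⟨U, hUo, hUe⟩ := hU
  have h0 : ((0 : C(X, ℝ)) : X → ℝ) ∈ U := by
    have : (0 : C(X, ℝ)) ∈ (fun f : C(X, ℝ) => (f : X → ℝ)) ⁻¹' U := by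
      rw [hUe]; simp
    exact this
  rw [isOpen_pi_iff] at hUo
  obtain ⟨I, u, hu, hsub⟩ := hUo _ h0
  refine ⟨I, fun f hf => ?_⟩
  have key : ∀ r : ℝ, |Λ (r • f)| < 1 := by
    intro r
    have : r • f ∈ (fun f : C(X, ℝ) => (f : X → ℝ)) ⁻¹' U := by
      apply hsub
      intro i hi
      have h1 : ((r • f : C(X, ℝ)) : X → ℝ) i = 0 := by
        simp [hf i hi]
      show ((r • f : C(X, ℝ)) : X → ℝ) i ∈ u i
      rw [h1]
      exact (hu i hi).2
    rw [hUe] at this
    exact this
  by_contra hne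
  have := key (Λ f)⁻¹
  rw [map_smul, smul_eq_mul, inv_mul_cancel₀ hne] at this
  simp at this

/-- such a functional is a finite combination of evaluations -/
theorem exists_repr_of_continuous {X : Type} [TopologicalSpace X] (Λ : C(X, ℝ) →ₗ[ℝ] ℝ)
    (h : @Continuous C(X, ℝ) ℝ (cpTop X) inferInstance (fun f => Λ f)) :
    ∃ (T : Finset X) (c : X → ℝ), (∀ x ∈ T, c x ≠ 0) ∧
      ∀ f : C(X, ℝ), Λ f = ∑ x ∈ T, c x * f x := by
  classical
  obtain ⟨T, hT⟩ := exists_finset_of_continuous Λ h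
  -- evaluations as linear maps
  let ev : T → (C(X, ℝ) →ₗ[ℝ] ℝ) := fun x =>
    { toFun := fun f => f x
      map_add' := fun _ _ => rfl
      map_smul' := fun _ _ => rfl }
  have hspan : Λ ∈ Submodule.span ℝ (Set.range ev) := by
    apply mem_span_of_iInf_ker_le_ker
    intro f hf
    rw [LinearMap.mem_ker]
    apply hT
    intro x hx
    have := (Submodule.mem_iInf _).1 hf ⟨x, hx⟩
    exact this
  rw [Submodule.mem_span_range_iff_exists_fun] at hspan
  obtain ⟨c, hc⟩ := hspan
  let c' : X → ℝ := fun x => if hx : x ∈ T then c ⟨x, hx⟩ else 0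
  refine ⟨T.filter (fun x => c' x ≠ 0), c', ?_, ?_⟩
  · intro x hx
    exact (Finset.mem_filter.1 hx).2
  · intro f
    have h1 : Λ f = ∑ x ∈ T, c' x * f x := by
      rw [← hc, LinearMap.sum_apply, ← Finset.sum_coe_sort T]
      apply Finset.sum_congr rfl
      intro x _
      simp [c', ev]
    rw [h1, Finset.sum_filter]
    apply Finset.sum_congr rfl
    intro x _
    by_cases hx : c' x = 0 <;> simp [hx]

/-- In a completely regular space finite sets are functionally separated from closed sets. -/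
theorem exists_sep {Y : Type} [TopologicalSpace Y] [CompletelyRegularSpace Y] (T : Finset Y)
    (C : Set Y) (hC : IsClosed C) (hd : ∀ t ∈ T, t ∉ C) :
    ∃ g : C(Y, ℝ), (∀ t ∈ T, g t = 0) ∧ ∀ y ∈ C, g y = 1 := by
  classical
  induction T using Finset.induction_on with
  | empty => exact ⟨1, by simp, by simp⟩
  | insert a T ha ih =>
    obtain ⟨g, hg0, hg1⟩ := ih (fun t ht => hd t (Finset.mem_insert_of_mem ht))
    obtain ⟨f, hfc, hf0, hf1⟩ := CompletelyRegularSpace.completely_regular a C hC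
      (hd a (Finset.mem_insert_self _ _))
    refine ⟨⟨fun y => (f y : ℝ), by fun_prop⟩ * g, ?_, ?_⟩
    · intro t ht
      rcases Finset.mem_insert.1 ht with rfl | ht
      · simp [hf0]
      · simp [hg0 t ht]
    · intro y hy
      have := hf1 hy
      simp [this, hg1 y hy]

/-- closures in the Stone-Cech compactification of a normal space. -/
theorem closure_inter_stoneCech {Y : Type} [TopologicalSpace Y] [NormalSpace Y] (C₁ C₂ : Set Y)
    (h₁ : IsClosed C₁) (h₂ : IsClosed C₂) (p : StoneCech Y)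
    (hp₁ : p ∈ closure (stoneCechUnit '' C₁)) (hp₂ : p ∈ closure (stoneCechUnit '' C₂)) :
    p ∈ closure (stoneCechUnit '' (C₁ ∩ C₂)) := by
  by_contra hp
  have hopen : (closure (stoneCechUnit '' (C₁ ∩ C₂)))ᶜ ∈ 𝓝 p :=
    isClosed_closure.isOpen_compl.mem_nhds hp
  obtain ⟨V, hV, hVc, hVsub⟩ := exists_mem_nhds_isClosed_subset hopen
  have hcl : ∀ C : Set Y, p ∈ closure (stoneCechUnit '' C) →
      p ∈ closure (stoneCechUnit '' (C ∩ stoneCechUnit ⁻¹' V)) := by
    intro C hC
    rw [mem_closure_iff_nhds] at hC ⊢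
    intro W hW
    obtain ⟨q, ⟨hqW, hqV⟩, ⟨y, hy, rfl⟩⟩ := hC (W ∩ V) (inter_mem hW hV)
    exact ⟨_, hqW, y, ⟨hy, hqV⟩, rfl⟩
  have hVY : IsClosed (stoneCechUnit ⁻¹' V : Set Y) := hVc.preimage continuous_stoneCechUnit
  have hdis : Disjoint (C₁ ∩ stoneCechUnit ⁻¹' V) (C₂ ∩ stoneCechUnit ⁻¹' V) := by
    rw [Set.disjoint_left]
    rintro y ⟨hy1, hyV⟩ ⟨hy2, _⟩
    exact hVsub hyV (subset_closure ⟨y, ⟨hy1, hy2⟩, rfl⟩)
  obtain ⟨f, hf0, hf1, hf⟩ := exists_continuous_zero_one_of_isClosed (h₁.inter hVY)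
    (h₂.inter hVY) hdis
  let f' : Y → unitInterval := fun y => ⟨f y, hf y⟩
  have hf'c : Continuous f' := by
    apply Continuous.subtype_mk
    exact f.continuous
  let F : StoneCech Y → unitInterval := stoneCechExtend hf'c
  have hF : Continuous F := continuous_stoneCechExtend hf'c
  have hFu : ∀ y, F (stoneCechUnit y) = f' y := fun y => by
    exact congrFun (stoneCechExtend_extends hf'c) y
  have hval : ∀ (C : Set Y) (a : unitInterval), p ∈ closure (stoneCechUnit '' C) →
      (∀ y ∈ C, f' y = a) → F p = a := by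
    intro C a hC hCa
    have : F '' closure (stoneCechUnit '' C) ⊆ closure (F '' (stoneCechUnit '' C)) :=
      image_closure_subset_closure_image hF
    have h2 : F p ∈ closure (F '' (stoneCechUnit '' C)) := this ⟨p, hC, rfl⟩
    have h3 : F '' (stoneCechUnit '' C) ⊆ {a} := by
      rintro _ ⟨_, ⟨y, hy, rfl⟩, rfl⟩
      rw [hFu, hCa y hy]; rfl
    have h4 := closure_mono h3 h2
    simpa using h4
  have e1 := hval _ 0 (hcl C₁ hp₁) (fun y hy => Subtype.ext (hf0 hy))
  have e2 := hval _ 1 (hcl C₂ hp₂) (fun y hy => Subtype.ext (hf1 hy))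
  rw [e1] at e2
  exact zero_ne_one e2

/-- A space with a complete sequence of countable covers is Lindelöf. -/
theorem lindelof_of_complete {Y : Type} [TopologicalSpace Y] (F : ℕ → ℕ → Set Y)
    (hcov : ∀ n, ⋃ k, F n k = univ)
    (hcomp : ∀ 𝒢 : Ultrafilter Y, (∀ n, ∃ k, F n k ∈ 𝒢) → ∃ y, (𝒢 : Filter Y) ≤ 𝓝 y) :
    LindelofSpace Y := by
  classical
  refine ⟨fun f _ _ _ => ?_⟩
  have step : ∀ (n : ℕ) (P : Set Y), (∃ᶠ y in f, y ∈ P) → ∃ k, ∃ᶠ y in f, y ∈ P ∩ F n k := by
    intro n P hP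
    by_contra hcon
    push Not at hcon
    have h2 : ∀ᶠ y in f, ∀ k, y ∉ P ∩ F n k := by
      rw [eventually_countable_forall]
      intro k
      exact hcon k
    apply hP
    filter_upwards [h2] with y hy hyP
    have : y ∈ ⋃ k, F n k := by rw [hcov n]; trivial
    obtain ⟨k, hk⟩ := mem_iUnion.1 this
    exact hy k ⟨hyP, hk⟩
  choose! kk hkk using step
  let G : ℕ → {P : Set Y // ∃ᶠ y in f, y ∈ P} := fun n => Nat.rec
    ⟨univ, by simp only [mem_univ]; exact frequently_const.2 trivial⟩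
    (fun n P => ⟨P.1 ∩ F n (kk n P.1), hkk n P.1 P.2⟩) n
  have hG : ∀ n, (G (n + 1)).1 = (G n).1 ∩ F n (kk n (G n).1) := fun n => rfl
  have hanti : Antitone (fun n => (G n).1) := by
    apply antitone_nat_of_succ_le
    intro n
    rw [hG]
    exact inter_subset_left
  let g : Filter Y := ⨅ n, f ⊓ 𝓟 (G n).1
  have hg : NeBot g := by
    have hne : Nonempty Y := by
      obtain ⟨y⟩ := (inferInstance : NeBot f).nonempty
      exact ⟨y⟩
    apply Filter.iInf_neBot_of_directed
    · apply Antitone.directed_ge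
      intro a b hab
      exact inf_le_inf_left _ (principal_mono.2 (hanti hab))
    · intro n
      rw [← frequently_mem_iff_neBot]
      exact (G n).2
  let 𝒢 := Ultrafilter.of g
  have h𝒢 : (𝒢 : Filter Y) ≤ g := Ultrafilter.of_le g
  obtain ⟨y, hy⟩ := hcomp 𝒢 (fun n => by
    refine ⟨kk n (G n).1, ?_⟩
    have h1 : (𝒢 : Filter Y) ≤ 𝓟 (G (n + 1)).1 := h𝒢.trans ((iInf_le _ (n + 1)).trans inf_le_right)
    have h2 := le_principal_iff.1 h1
    exact mem_of_superset h2 (by rw [hG]; exact inter_subset_right))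
  refine ⟨y, trivial, ?_⟩
  have h3 : (𝒢 : Filter Y) ≤ f := h𝒢.trans ((iInf_le _ 0).trans inf_le_left)
  exact (ClusterPt.of_le_nhds hy).mono h3

/-- A Tychonoff space with a complete sequence of countable closed covers is a countable
intersection of sigma-compact subsets of its Stone-Cech compactification. -/
theorem ksd_of_complete {Y : Type} [TopologicalSpace Y] [T35Space Y] (F : ℕ → ℕ → Set Y)
    (hFc : ∀ n k, IsClosed (F n k)) (hcov : ∀ n, ⋃ k, F n k = univ)
    (hcomp : ∀ 𝒢 : Ultrafilter Y, (∀ n, ∃ k, F n k ∈ 𝒢) → ∃ y, (𝒢 : Filter Y) ≤ 𝓝 y) :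
    ∃ (K : Type) (_ : TopologicalSpace K), CompactSpace K ∧ T2Space K ∧
      ∃ e : Y → K, Topology.IsEmbedding e ∧
        ∃ A : ℕ → ℕ → Set K, (∀ n m, IsCompact (A n m)) ∧ Set.range e = ⋂ n, ⋃ m, A n m := by
  have hL : LindelofSpace Y := lindelof_of_complete F hcov hcomp
  refine ⟨StoneCech Y, inferInstance, inferInstance, inferInstance, stoneCechUnit,
    isEmbedding_stoneCechUnit, fun n k => closure (stoneCechUnit '' F n k),
    fun n k => isClosed_closure.isCompact, ?_⟩
  apply Subset.antisymm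
  · rintro _ ⟨y, rfl⟩
    rw [mem_iInter]
    intro n
    have : y ∈ ⋃ k, F n k := by rw [hcov n]; trivial
    obtain ⟨k, hk⟩ := mem_iUnion.1 this
    exact mem_iUnion.2 ⟨k, subset_closure ⟨y, hk, rfl⟩⟩
  · intro p hp
    rw [mem_iInter] at hp
    have hp' : ∀ n, ∃ k, p ∈ closure (stoneCechUnit '' F n k) := fun n => mem_iUnion.1 (hp n)
    choose k hk using hp'
    let P : ℕ → Set Y := fun n => Nat.rec univ (fun n Q => Q ∩ F n (k n)) n
    have hP : ∀ n, P (n + 1) = P n ∩ F n (k n) := fun n => rfl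
    have hPc : ∀ n, IsClosed (P n) := by
      intro n
      induction n with
      | zero => exact isClosed_univ
      | succ n ih => rw [hP]; exact ih.inter (hFc _ _)
    have hpP : ∀ n, p ∈ closure (stoneCechUnit '' P n) := by
      intro n
      induction n with
      | zero =>
        have : stoneCechUnit '' P 0 = range (stoneCechUnit : Y → StoneCech Y) := image_univ
        rw [this]
        exact denseRange_stoneCechUnit p
      | succ n ih =>
        rw [hP]
        exact closure_inter_stoneCech _ _ (hPc n) (hFc _ _) p ih (hk n)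
    have hanti : Antitone P := by
      apply antitone_nat_of_succ_le
      intro n
      rw [hP]
      exact inter_subset_left
    let g : Filter Y := ⨅ n, comap stoneCechUnit (𝓝 p) ⊓ 𝓟 (P n)
    have hne : ∀ n, NeBot (comap stoneCechUnit (𝓝 p) ⊓ 𝓟 (P n)) := by
      intro n
      have h1 := hpP n
      rw [mem_closure_iff_nhds] at h1
      rw [Filter.inf_principal_neBot_iff]
      intro U hU
      obtain ⟨V, hV, hVU⟩ := mem_comap.1 hU
      obtain ⟨q, hqV, ⟨y, hy, rfl⟩⟩ := h1 V hV
      exact ⟨y, hVU hqV, hy⟩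
    have hg : NeBot g := by
      have : Nonempty Y := by
        obtain ⟨y⟩ := (hne 0).nonempty
        exact ⟨y⟩
      apply Filter.iInf_neBot_of_directed
      · apply Antitone.directed_ge
        intro a b hab
        exact inf_le_inf_left _ (principal_mono.2 (hanti hab))
      · exact hne
    let 𝒢 := Ultrafilter.of g
    have h𝒢 : (𝒢 : Filter Y) ≤ g := Ultrafilter.of_le g
    obtain ⟨y, hy⟩ := hcomp 𝒢 (fun n => by
      refine ⟨k n, ?_⟩
      have h1 : (𝒢 : Filter Y) ≤ 𝓟 (P (n + 1)) := h𝒢.trans ((iInf_le _ (n + 1)).trans inf_le_right)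
      have h2 := le_principal_iff.1 h1
      exact mem_of_superset h2 (by rw [hP]; exact inter_subset_right))
    refine ⟨y, ?_⟩
    have h1 : map stoneCechUnit (𝒢 : Filter Y) ≤ 𝓝 p := by
      rw [map_le_iff_le_comap]
      exact h𝒢.trans ((iInf_le _ 0).trans inf_le_left)
    have h2 : map stoneCechUnit (𝒢 : Filter Y) ≤ 𝓝 (stoneCechUnit y) :=
      (continuous_stoneCechUnit.tendsto y).mono_left hy
    exact tendsto_nhds_unique (f := stoneCechUnit) (l := (𝒢 : Filter Y)) h2 h1

end Pool.Agent.Helper56.CpKsd
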